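import Pool.Agent.Helper36.CQ.Fin
import Pool.Agent.Helper16.CQ.M_DEC
import Pool.Agent.Helper37.CQ.M_HAU
import Pool.Agent.Helper28.CQ.M_RHO
import Pool.Agent.Helper73.CQ.M_MOD
import Pool.Agent.Helper44.CQ.M_COL

set_option autoImplicit false

/-! MP_f663dd_lc (helper36, project CQ): the square bracket relation with countable exponent at
successor cardinals is equivalent to the classical Chang conjecture. Definitions: `NegRel` in
Pool/Agent/Helper83/CK/Final.lean (`Om` in Pool/Agent/Helper83/CK/St.lean), `Transfer` in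
Pool/Agent/Helper36/CQ/St.lean, `PairBdd` in Pool/Agent/Helper36/CQ/Fin.lean. -/

namespace Pool.Agent.Results.MP_f663dd_lc.ChangEquivalence

open Pool.Agent.Helper83.CK Pool.Agent.Helper36.CQ Cardinal Set
universe u

/-- For infinite `k`, `k⁺ → [k]^ω_k` if and only if `k = μ⁺`, `μ^ω = μ` and Chang's conjecture
`(μ⁺⁺, μ⁺) ↠ (μ⁺, μ)` holds; if and only if `k = μ⁺`, `μ^ω = μ` and every colouring of the pairs of
`μ⁺⁺` by ordinals below `μ⁺` is bounded on a set of size `μ⁺`. For `μ = 𝔠`: the relation of Q1 holds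
for some `λ > 𝔠⁺` if and only if `(𝔠⁺⁺, 𝔠⁺) ↠ (𝔠⁺, 𝔠)` fails, if and only if some colouring of the
pairs of `𝔠⁺⁺` by ordinals below `𝔠⁺` is unbounded on every set of size `𝔠⁺`. -/
theorem result :
    (∀ k : Cardinal.{u}, ℵ₀ ≤ k →
      (¬ NegRel (Order.succ k) k ↔
        ∃ μ : Cardinal.{u}, k = Order.succ μ ∧ μ ^ ℵ₀ = μ ∧
          Transfer (Order.succ (Order.succ μ)) (Order.succ μ) (Order.succ μ) μ) ∧
      (¬ NegRel (Order.succ k) k ↔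
        ∃ μ : Cardinal.{u}, k = Order.succ μ ∧ μ ^ ℵ₀ = μ ∧ PairBdd μ)) ∧
    ((∃ l : Cardinal.{u}, Order.succ 𝔠 < l ∧ NegRel l (Order.succ 𝔠)) ↔
      ¬ Transfer (Order.succ (Order.succ (𝔠 : Cardinal.{u}))) (Order.succ 𝔠) (Order.succ 𝔠) 𝔠) ∧
    ((∃ l : Cardinal.{u}, Order.succ 𝔠 < l ∧ NegRel l (Order.succ 𝔠)) ↔ ¬ PairBdd.{u} 𝔠) := by
  obtain ⟨h1, h2, -, -, h5, h6⟩ := main.{u} Pool.Agent.Helper16.CQ.mDEC
    Pool.Agent.Helper37.CQ.mHAU (Pool.Agent.Helper28.CQ.mRHO tQ tH) Pool.Agent.Helper73.CQ.mMOD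
    Pool.Agent.Helper44.CQ.mCOL
  refine ⟨fun k hk => ⟨h1 k hk, ⟨fun h => ?_, ?_⟩⟩, h5, h6⟩
  · obtain ⟨μ, rfl, hp, -⟩ := (h1 k hk).1 h
    exact ⟨μ, rfl, hp, (h2 μ (inf_of_succ μ hk) hp).1 h⟩
  · rintro ⟨μ, rfl, hp, hb⟩
    exact (h2 μ (inf_of_succ μ hk) hp).2 hb

end Pool.Agent.Results.MP_f663dd_lc.ChangEquivalence
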