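import Pool.Agent.Helper83.CK.Final
import Pool.Agent.Helper16.CK.M_W
import Pool.Agent.Helper29.CK.M_B
import Pool.Agent.Helper29.CK.M_L
import Pool.Agent.Helper3.CK.M_D
import Pool.Agent.Helper35.CK.M_E
import Pool.Agent.Helper42.CK.M_G
import Pool.Agent.Helper42.CK.M_I
import Pool.Agent.Helper60.CK.M_S
import Pool.Agent.Helper64.CK.M_Q
import Pool.Agent.Helper72.CK.M_N
import Pool.Agent.Helper80.CK.M_T
import Pool.Agent.Helper82.CK.M_F
import Pool.Agent.Helper82.CK.M_R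
import Pool.Agent.Helper84.CK.M_O
import Pool.Agent.Helper85.CK.M_P
import Pool.Agent.Helper90.CK.M_A
import Pool.Agent.Helper93.CK.M_H

set_option autoImplicit false

/-! MP_f663dd_lc (helper83, idea helper78, project CK): the square bracket relation with countable
exponent and omega-closed Chang transfer. Definitions (`Om`, `Cl`, `Chang`, `ChangEq`) in
Pool/Agent/Helper83/CK/St.lean, `NegRel` in Pool/Agent/Helper83/CK/Final.lean. -/

namespace Pool.Agent.Results.MP_f663dd_lc.ClosedChang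

open Pool.Agent.Helper83.CK Cardinal Set
universe u

/-- (1) For all infinite `k ≤ l` the positive relation `l → [k]^ω_k` is equivalent to: every
colouring with `k` colours has some `X` of size `k` with fewer than `k` colours; and to the
omega-closed Chang transfer property. (2) `k^{+m} ↛ [k]^ω_k` if `k` is a limit cardinal or `k = n^ω`
for some `n < k`. (3) So `k^+ → [k]^ω_k` only for `k = μ^+`, `𝔠 ≤ μ`, with `μ^ω = μ` or `μ^ω > μ^+`.
(4) In ZFC some colouring of `k^+` gives all colours to every set of order type more than `k`.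
(5) The case `k = 𝔠^+` of Q1. -/
theorem result :
    (∀ k l : Cardinal.{u}, ℵ₀ ≤ k → k ≤ l → ∀ K : Set l.ord.ToType, #K = k →
      (¬ NegRel l k ↔ ∀ F : Set l.ord.ToType → k.ord.ToType,
        ∃ X : Set l.ord.ToType, #X = k ∧ #(F '' Om X) < k) ∧
      (¬ NegRel l k ↔ Chang K) ∧ (k ^ ℵ₀ = k → (¬ NegRel l k ↔ ChangEq K))) ∧
    (∀ k : Cardinal.{u}, ℵ₀ ≤ k → ((∀ c < k, Order.succ c < k) ∨ ∃ n < k, n ^ ℵ₀ = k) →
      ∀ m : ℕ, NegRel (Order.succ^[m] k) k) ∧
    (∀ k : Cardinal.{u}, ℵ₀ ≤ k → ¬ NegRel (Order.succ k) k →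
      ∃ μ : Cardinal.{u}, k = Order.succ μ ∧ 𝔠 ≤ μ ∧ (μ ^ ℵ₀ = μ ∨ k < μ ^ ℵ₀)) ∧
    (∀ k : Cardinal.{u}, ℵ₀ ≤ k → ∃ f : Set (Order.succ k).ord.ToType → k.ord.ToType,
      ∀ X : Set (Order.succ k).ord.ToType, ∀ d ∈ X, #(X ∩ Iio d : Set _) = k →
        f '' Om X = Set.univ) ∧
    (∀ (l : Cardinal.{u}) (K : Set l.ord.ToType), #K = Order.succ 𝔠 →
      (¬ NegRel l (Order.succ 𝔠) ↔
        ∀ F : Set l.ord.ToType → (Order.succ (𝔠 : Cardinal.{u})).ord.ToType,
          ∃ X : Set l.ord.ToType, #X = Order.succ 𝔠 ∧ #(F '' Om X) ≤ 𝔠) ∧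
      (¬ NegRel l (Order.succ 𝔠) ↔ ∀ g : (ℕ → Bool) → (ℕ → l.ord.ToType) → l.ord.ToType,
        ∃ A : Set l.ord.ToType, Cl g A ∧ #A = Order.succ 𝔠 ∧ #(A ∩ K : Set _) ≤ 𝔠)) := by
  have hB : StB := Pool.Agent.Helper29.CK.mB Pool.Agent.Helper42.CK.mI
  have hR : StR.{u} := Pool.Agent.Helper82.CK.mR hB
  have hH : StH.{u} := Pool.Agent.Helper93.CK.mH
  have hF : StF.{u} := Pool.Agent.Helper82.CK.mF
  have hT : StT.{u} := Pool.Agent.Helper80.CK.mT
  have hS : StS.{u} := Pool.Agent.Helper60.CK.mS hR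
  have hD : StD.{u} := Pool.Agent.Helper3.CK.mD hR hH hF
  have hE : StE.{u} := Pool.Agent.Helper35.CK.mE hR hF hT
  have hG : StG.{u} := Pool.Agent.Helper42.CK.mG
  have hW : StW.{u} := Pool.Agent.Helper16.CK.mW hT
  have hP : StP.{u} := Pool.Agent.Helper85.CK.mP
  have hQ : StQ.{u} := Pool.Agent.Helper64.CK.mQ hP
  have hL : StL.{u} := Pool.Agent.Helper29.CK.mL hQ
  have hA : StA.{u} := Pool.Agent.Helper90.CK.mA
  have hN : StN.{u} := Pool.Agent.Helper72.CK.mN hA hQ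
  have hO : StO.{u} := Pool.Agent.Helper84.CK.mO hH
  have hneg := fun (k : Cardinal.{u}) (hk : ℵ₀ ≤ k)
    (h : (∀ c < k, Order.succ c < k) ∨ ∃ n < k, n ^ ℵ₀ = k) (m : ℕ) =>
      neg_relations hS hD hE hL hN k hk h m
  exact ⟨fun k l hk _ K hK => main_equiv hS hD hE hG hW k l hk K hK, hneg,
    fun k hk h => pos_only hS hneg k hk h, hO,
    fun l K hK => q1_inst hS hD hE hG hW Pool.Agent.Helper90.CK.succ_pow l K hK⟩

end Pool.Agent.Results.MP_f663dd_lc.ClosedChang
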