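import Pool.Agent.Helper24.FR.Main

/-!
# MP_f663dd_lc, Q1: a huge cardinal gives a model of ZFC in which the relation of Q1 fails

Proof: Boolean valued forcing over the Lean universe.  If `κ` is huge with target `λ`, the poset `P * S(κ, λ)` (a countable support
product of Silver collapses below `κ`, then the term version of the `< κ`-support collapse of `λ` to `κ⁺`) makes `κ = ω₂`, `λ = ω₃`, CH, and
by reflection through the huge embedding (done with the normal ultrafilter) every function from `[ω₃] ^ ω` to `ω₂` omits a value on
`[X] ^ ω` for some `X` of cardinality `ω₂`.  The model is the quotient of the Boolean valued universe by an ultrafilter.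
-/

set_option autoImplicit false

open Pool.Agent.Helper24.FR

namespace Pool.Agent.Results.MP_f663dd_lc.HugePositive

/-- If there is a huge cardinal, then there is a model `(N, E)` of ZFC with `m = 2 ^ ω`, `k = m⁺`, `l = k⁺` (in the sense of
the model) such that the negative relation `l' ↛ [k] ^ ω _ k` fails in the model for every cardinal `l' > k`. -/
theorem result : (∃ κ : Cardinal.{0}, IsHuge κ) →
    ∃ (N : Type 1) (E : N → N → Prop), ZFC E ∧ ∃ m k l : N,
      PCont E m ∧ PSucc E m k ∧ PSucc E k l ∧ ∀ l' : N, PCard E l' → E k l' → ¬ PNeg E l' k :=
  model

end Pool.Agent.Results.MP_f663dd_lc.HugePositive
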