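import Pool.Agent.Helper83.SU.Main

set_option autoImplicit false

/-! MP_f663dd_lc (helper83, project SU): the least cardinal at which the negative square bracket relation fails.
Definitions: `NegRel` in Pool/Agent/Helper83/CK/Final.lean; `Lim`, `ot`, `Sq`, `Square` in
Pool/Agent/Helper83/SU/St.lean; `Least`, `WInacc`, `SInacc` in Pool/Agent/Helper83/SU/Final.lean. -/

namespace Pool.Agent.Results.MP_f663dd_lc.LeastFailure

open Pool.Agent.Helper83.CK Pool.Agent.Helper83.SU Cardinal Set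
universe u

/-- (1) Let `k` be regular and `l` the least cardinal `≥ k` with `l → [k]^ω_k`. Then `𝔠 < k < l` and `l` is regular; a
family of subsets of a set of size `< l` with fewer than `k` traces on every subset of size `< k` has size `< l`;
`τ^θ < l` for `τ < l` and `θ` with `ρ^θ < k` for all `ρ < k`; `l` is a limit cardinal (a strong limit) if `k` is; and there is no
square-like sequence on `l`. (2), (3) The negative relation for weakly (strongly) inaccessible `k` below the next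
weakly (strongly) inaccessible. (4) Below the first weakly inaccessible it follows from `□_τ` for those `τ` that are equal to their
powers. (5) The case `k = 𝔠^+` of Q1. -/
theorem result :
    (∀ k l : Cardinal.{u}, k.IsRegular → Least l k →
      𝔠 < k ∧ k < l ∧ l.IsRegular ∧
      (∀ (S : Type u) (F : Set (Set S)), #S < l →
        (∀ B : Set S, #B < k → #((fun X => X ∩ B) '' F) < k) → #F < l) ∧
      (∀ τ θ : Cardinal.{u}, τ < l → ℵ₀ ≤ θ → (∀ ρ < k, ρ ^ θ < k) → τ ^ θ < l) ∧
      ((∀ c < k, Order.succ c < k) → ∀ c < l, Order.succ c < l) ∧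
      ((∀ c < k, 2 ^ c < k) → ∀ c < l, 2 ^ c < l) ∧
      ¬ Sq k l) ∧
    (∀ k l : Cardinal.{u}, WInacc k → k ≤ l → (∀ c, k < c → c ≤ l → ¬ WInacc c) → NegRel l k) ∧
    (∀ k l : Cardinal.{u}, SInacc k → k ≤ l → (∀ c, k < c → c ≤ l → ¬ SInacc c) → NegRel l k) ∧
    (∀ k l : Cardinal.{u}, k.IsRegular → k ≤ l → (∀ c, k < c → c ≤ l → ¬ WInacc c) →
      (∀ τ, k ≤ τ → τ < l → (∀ θ, ℵ₀ ≤ θ → (∀ ρ < k, ρ ^ θ < k) → τ ^ θ = τ) → Square τ) →
      NegRel l k) ∧
    (∀ k : Cardinal.{u}, k = Order.succ 𝔠 →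
      (∀ l, k ≤ l → NegRel l k → NegRel (l ^ ℵ₀) k) ∧
      ((∃ (S : Type u) (F : Set (Set S)), #S = k ∧
        (∀ B : Set S, #B ≤ 𝔠 → #((fun X => X ∩ B) '' F) ≤ 𝔠) ∧ k < #F) →
        NegRel (Order.succ k) k) ∧
      (Square k → NegRel (Order.succ k) k)) := by
  refine ⟨fun k l hk h => least_props tDM tKU tPW tSL tLS tSG tSQ k l hk h,
    fun k l hk h1 h2 => below_winacc tDM tKU tPW tSL tLS tSG tSQ k l hk h1 h2,
    fun k l hk h1 h2 => below_sinacc tDM tKU tPW tSL tLS tSG tSQ k l hk h1 h2,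
    fun k l hk h1 h2 h3 => square_step tDM tKU tPW tSL tLS tSG tSQ tST k l hk h1 h2 h3, ?_⟩
  rintro k rfl
  have hreg : (Order.succ (𝔠 : Cardinal.{u})).IsRegular := isRegular_succ aleph0_le_continuum
  refine ⟨?_, ?_, fun h => square_succ _ hreg h⟩
  · intro l h1 h2
    exact tPW _ l ℵ₀ hreg.aleph0_le h1 le_rfl pow_lt_succ_continuum h2
  · rintro ⟨S, F, hS, hF, hlt⟩
    refine kurepa_succ _ hreg S F hS (fun B hB => ?_) hlt
    exact Order.lt_succ_iff.2 (hF B (Order.lt_succ_iff.1 hB))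

end Pool.Agent.Results.MP_f663dd_lc.LeastFailure
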